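import Pool.Agent.Y276.Lf.Pel

set_option autoImplicit false
set_option linter.unusedSectionVars false

/-!
Free `p`-spaces over metric spaces with far away copies of balls.
-/

namespace Pool.Agent.Y276.Lf

open Pool.Agent.H621R3.LF

universe u

/-- every ball of `M` around `x0` has `L`-Lipschitz complemented copies arbitrarily far away -/
def FarCopies {M : Type u} [MetricSpace M] (x0 : M) (L : ℝ) : Prop :=
  ∀ R r : ℝ, ∃ σ τ : M → M, (∀ x y, dist (σ x) (σ y) ≤ L * dist x y) ∧
    (∀ x y, dist (τ x) (τ y) ≤ L * dist x y) ∧ (∀ x, dist x x0 ≤ R → τ (σ x) = x) ∧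
    r ≤ dist (σ x0) x0

section

variable {M : Type u} [MetricSpace M] {x0 : M} {L : ℝ}

theorem FarCopies.one_le (h : FarCopies x0 L) : 1 ≤ L := by
  obtain ⟨σ, τ, h1, h2, h3, h4⟩ := h 0 1
  set y := σ x0 with hy
  have hpos : 0 < dist y x0 := by linarith
  obtain ⟨σ', τ', k1, k2, k3, _⟩ := h (dist y x0) 0
  have e1 : τ' (σ' y) = y := k3 y le_rfl
  have e2 : τ' (σ' x0) = x0 := k3 x0 (by rw [dist_self]; exact dist_nonneg)
  have hL0 : 0 ≤ L := by
    have h5 := (dist_nonneg (x := σ' y) (y := σ' x0)).trans (k1 y x0)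
    by_contra hc
    push Not at hc
    have := mul_neg_of_neg_of_pos hc hpos
    linarith
  have h6 : dist y x0 ≤ L * (L * dist y x0) := by
    have h7 := k2 (σ' y) (σ' x0)
    rw [e1, e2] at h7
    exact h7.trans (mul_le_mul_of_nonneg_left (k1 y x0) hL0)
  have h8 : 1 * dist y x0 ≤ (L * L) * dist y x0 := by linarith
  have h9 := le_of_mul_le_mul_right h8 hpos
  nlinarith

/-- a cut-off function -/
noncomputable def th (z : M) (D : ℝ) (y : M) : ℝ := clip (2 - 8 * dist y z / D)

theorem th_abs (z : M) (D : ℝ) (y : M) : |th z D y| ≤ 1 := by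
  unfold th
  rw [abs_of_nonneg (clip_nonneg _)]
  exact clip_le_one _

theorem th_lip (z : M) {D : ℝ} (hD : 0 < D) (x y : M) :
    |th z D x - th z D y| ≤ 8 / D * dist x y := by
  unfold th
  refine (abs_clip_sub _ _).trans ?_
  have e : (2 - 8 * dist x z / D) - (2 - 8 * dist y z / D) = 8 / D * (dist y z - dist x z) := by
    ring
  rw [e, abs_mul, abs_of_pos (by positivity)]
  refine mul_le_mul_of_nonneg_left ?_ (by positivity)
  rw [dist_comm x y]
  exact abs_dist_sub_le y x z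

theorem th_ne {z : M} {D : ℝ} (hD : 0 < D) {y : M} (h : th z D y ≠ 0) : dist y z ≤ D / 4 := by
  by_contra hc
  push Not at hc
  refine h (clip_of_nonpos ?_)
  have h1 : 2 ≤ 8 * dist y z / D := by
    rw [le_div_iff₀ hD]
    linarith
  linarith

theorem th_one {z : M} {D : ℝ} (hD : 0 < D) {y : M} (h : dist y z ≤ D / 8) : th z D y = 1 := by
  refine clip_of_one_le ?_
  have h1 : 8 * dist y z / D ≤ 1 := by
    rw [div_le_iff₀ hD]
    linarith
  linarith

end

section Seq

variable {M : Type u} [MetricSpace M] {x0 : M} {z : ℕ → M}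

/-- the centres move away fast -/
def Fast (x0 : M) (z : ℕ → M) : Prop :=
  0 < dist (z 0) x0 ∧ ∀ n, 8 * dist (z n) x0 ≤ dist (z (n + 1)) x0

theorem Fast.pos (h : Fast x0 z) (n : ℕ) : 0 < dist (z n) x0 := by
  induction n with
  | zero => exact h.1
  | succ n ih =>
    have := h.2 n
    linarith

theorem Fast.lt (h : Fast x0 z) {n m : ℕ} (hnm : n < m) : 8 * dist (z n) x0 ≤ dist (z m) x0 := by
  induction m, hnm using Nat.le_induction with
  | base => exact h.2 n
  | succ m _ ih =>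
    have h1 := h.2 m
    have h2 := h.pos m
    linarith

/-- the cut-off function number `n` -/
noncomputable def tn (x0 : M) (z : ℕ → M) (n : ℕ) (y : M) : ℝ := th (z n) (dist (z n) x0) y

theorem tn_lt (h : Fast x0 z) {n m : ℕ} {y : M} (hn : tn x0 z n y ≠ 0) (hm : tn x0 z m y ≠ 0)
    (hnm : n < m) : False := by
  have h1 := th_ne (h.pos n) hn
  have h2 := th_ne (h.pos m) hm
  have h3 := h.lt hnm
  have h4 := h.pos n
  have h5 : dist (z m) x0 ≤ dist (z m) y + dist y (z n) + dist (z n) x0 :=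
    dist_triangle4 _ _ _ _
  rw [dist_comm (z m) y] at h5
  linarith

theorem tn_unique (h : Fast x0 z) {n m : ℕ} {y : M} (hn : tn x0 z n y ≠ 0)
    (hm : tn x0 z m y ≠ 0) : n = m := by
  rcases lt_trichotomy n m with h' | h' | h'
  · exact (tn_lt h hn hm h').elim
  · exact h'
  · exact (tn_lt h hm hn h').elim

theorem tn_base (h : Fast x0 z) (n : ℕ) : tn x0 z n x0 = 0 := by
  by_contra h'
  have h1 := th_ne (h.pos n) h'
  have h2 := h.pos n
  rw [dist_comm] at h1
  linarith

open Classical in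
/-- the set of the active indices -/
noncomputable def TS (x0 : M) (z : ℕ → M) (y : M) : Finset ℕ :=
  if h : ∃ n, tn x0 z n y ≠ 0 then {h.choose} else ∅

theorem TS_card (x0 : M) (z : ℕ → M) (y : M) : (TS x0 z y).card ≤ 1 := by
  unfold TS
  split_ifs <;> simp

theorem TS_of_ne (h : Fast x0 z) {n : ℕ} {y : M} (hn : tn x0 z n y ≠ 0) : TS x0 z y = {n} := by
  have h' : ∃ n, tn x0 z n y ≠ 0 := ⟨n, hn⟩
  unfold TS
  rw [dif_pos h', tn_unique h h'.choose_spec hn]

theorem TS_out (h : Fast x0 z) {n : ℕ} {y : M} (hn : n ∉ TS x0 z y) : tn x0 z n y = 0 := by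
  by_contra h'
  rw [TS_of_ne h h'] at hn
  simp at hn

end Seq

theorem rpow_const {p : ℝ} (hp1 : p ≤ 1) {c L : ℝ} (hc : 1 ≤ c) (hL : 0 ≤ L) :
    (c * L) ^ p ≤ c * L ^ p := by
  rw [Real.mul_rpow (by linarith) hL]
  refine mul_le_mul_of_nonneg_right ?_ (Real.rpow_nonneg hL p)
  calc c ^ p ≤ c ^ (1 : ℝ) := Real.rpow_le_rpow_of_exponent_le hc hp1
    _ = c := Real.rpow_one c

/-- the main theorem -/
theorem far_iso {M : Type u} [MetricSpace M] {x0 : M} {L : ℝ} (hfar : FarCopies x0 L) {p : ℝ}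
    (hp : 0 < p) (hp1 : p ≤ 1) {F : Type u} [NormedAddCommGroup F] [Module ℝ F]
    [PBanach p F] (δ : M → F) (h : IsLipFree p x0 δ) :
    ∃ Φ : F ≃L[ℝ] EllP p F, (∀ v, ‖Φ v‖ ≤ 10 ^ 4 * L ^ (3 * p) * ‖v‖) ∧
      ∀ w, ‖Φ.symm w‖ ≤ 10 ^ 4 * L ^ (3 * p) * ‖w‖ := by
  have hL1 := hfar.one_le
  have hL0 : 0 ≤ L := by linarith
  have hLpos : 0 < L := by linarith
  choose sg0 tu0 hsgl0 htul0 htusg0 hfar0 using hfar
  -- the choice of the scales
  let rr : ℕ → ℝ := fun n => Nat.rec (16 * L)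
    (fun n r => max (8 * L * 2 ^ (n + 2)) (8 * dist (sg0 (2 ^ (n + 1)) r x0) x0)) n
  have hrr0 : rr 0 = 16 * L := rfl
  have hrrs : ∀ n, rr (n + 1) =
      max (8 * L * 2 ^ (n + 2)) (8 * dist (sg0 (2 ^ (n + 1)) (rr n) x0) x0) := fun n => rfl
  let sg : ℕ → M → M := fun n => sg0 (2 ^ (n + 1)) (rr n)
  let tu : ℕ → M → M := fun n => tu0 (2 ^ (n + 1)) (rr n)
  let z : ℕ → M := fun n => sg n x0
  have hrD : ∀ n, rr n ≤ dist (z n) x0 := fun n => hfar0 _ _
  have hrL : ∀ n, 8 * L * 2 ^ (n + 1) ≤ rr n := by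
    intro n
    cases n with
    | zero =>
      rw [hrr0]
      have : (2 : ℝ) ^ (0 + 1) = 2 := by norm_num
      rw [this]
      linarith
    | succ n => rw [hrrs]; exact le_max_left _ _
  have hDL : ∀ n, 8 * L * 2 ^ (n + 1) ≤ dist (z n) x0 := fun n => (hrL n).trans (hrD n)
  have hfast : Fast x0 z := by
    refine ⟨?_, fun n => ?_⟩
    · have := hDL 0
      have h1 : 0 < 8 * L * 2 ^ (0 + 1) := by positivity
      linarith
    · refine le_trans ?_ (hrD (n + 1))
      rw [hrrs]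
      exact le_max_right _ _
  have hD : ∀ n, 0 < dist (z n) x0 := hfast.pos
  have hsgl : ∀ n x y, dist (sg n x) (sg n y) ≤ L * dist x y := fun n x y => hsgl0 _ _ x y
  have htul : ∀ n x y, dist (tu n x) (tu n y) ≤ L * dist x y := fun n x y => htul0 _ _ x y
  have htusg : ∀ n x, dist x x0 ≤ 2 ^ (n + 1) → tu n (sg n x) = x := fun n x hx =>
    htusg0 _ _ x hx
  have htuz : ∀ n, tu n (z n) = x0 := fun n => htusg n x0 (by rw [dist_self]; positivity)
  have hpk : ∀ i k : ℕ, (2 : ℝ) ^ (k + 1) ≤ 2 ^ (Nat.pair i k + 1) := fun i k =>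
    pow_le_pow_right₀ (by norm_num) (Nat.add_le_add_right (Nat.right_le_pair i k) 1)
  -- the cut-off function is one on the relevant part of the image
  have hone : ∀ i k x, dist x x0 ≤ 2 ^ (k + 1) →
      tn x0 z (Nat.pair i k) (sg (Nat.pair i k) x) = 1 := by
    intro i k x hx
    refine th_one (hD _) ?_
    have h1 : dist (sg (Nat.pair i k) x) (z (Nat.pair i k)) ≤ L * dist x x0 := hsgl _ x x0
    have h2 : L * dist x x0 ≤ L * 2 ^ (Nat.pair i k + 1) :=
      mul_le_mul_of_nonneg_left (hx.trans (hpk i k)) hL0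
    have h3 := hDL (Nat.pair i k)
    linarith
  have hδ : ∀ x, ‖δ x‖ = dist x x0 ^ p := by
    intro x
    have := h.isometric x x0
    rwa [h.map_base, sub_zero] at this
  -- the maps `s_i`
  let T : M → Finset ℕ := fun x => {lev x0 x, lev x0 x + 1}
  let g : ℕ → ℕ → M → F := fun i k x => δ (sg (Nat.pair i k) x) - δ (sg (Nat.pair i k) x0)
  let s : ℕ → M → F := fun i x => ∑ k ∈ T x, eta x0 k x • g i k x
  have hLp : 0 ≤ L ^ p := by positivity
  have hg : ∀ i k x y, ‖g i k x - g i k y‖ ≤ L ^ p * dist x y ^ p := by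
    intro i k x y
    have e : g i k x - g i k y = δ (sg (Nat.pair i k) x) - δ (sg (Nat.pair i k) y) := by
      show δ (sg (Nat.pair i k) x) - δ (sg (Nat.pair i k) x0) -
        (δ (sg (Nat.pair i k) y) - δ (sg (Nat.pair i k) x0)) = _
      abel
    rw [e, h.isometric, ← Real.mul_rpow hL0 dist_nonneg]
    exact Real.rpow_le_rpow dist_nonneg (hsgl _ x y) hp.le
  have hg0 : ∀ i k, g i k x0 = 0 := fun i k => sub_self _
  have hgB : ∀ i k x, eta x0 k x ≠ 0 → ‖g i k x‖ ≤ (L * 2 ^ (k + 1)) ^ p := by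
    intro i k x hx
    have h1 := hg i k x x0
    rw [hg0, sub_zero, ← Real.mul_rpow hL0 dist_nonneg] at h1
    exact h1.trans (Real.rpow_le_rpow (by positivity)
      (mul_le_mul_of_nonneg_left (eta_ne hx) hL0) hp.le)
  have hprod : ∀ i k x y, ‖eta x0 k x • g i k x - eta x0 k y • g i k y‖ ≤
      ((6 * L) ^ p + L ^ p) * dist x y ^ p := by
    intro i k x y
    have h1 := prod_lip hp (eta x0 k) (g i k) (3 / 2 ^ k) (L * 2 ^ (k + 1)) (L ^ p) (by positivity)
      (by positivity) hLp (eta_abs x0 k) (eta_lip x0 k) (hg i k) (hgB i k) x y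
    have h2 : 3 / 2 ^ k * (L * 2 ^ (k + 1)) = 6 * L := by
      rw [pow_succ]
      field_simp
      ring
    rwa [h2] at h1
  have hs0 : ∀ i, s i x0 = 0 := by
    intro i
    show ∑ k ∈ T x0, eta x0 k x0 • g i k x0 = 0
    refine Finset.sum_eq_zero fun k _ => ?_
    rw [hg0, smul_zero]
  have hsl : ∀ i x y, ‖s i x - s i y‖ ≤
      (2 * (2 : ℕ) * ((6 * L) ^ p + L ^ p)) * dist x y ^ p := fun i =>
    overlap (fun k x => eta x0 k x • g i k x) T 2 _ (by positivity)
      (fun x => Finset.card_le_two)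
      (fun x k hk => by
        show eta x0 k x • g i k x = 0
        rw [eta_out hk, zero_smul]) (hprod i)
  choose S hS hSb using fun i => h.liftC hp (s i) _ (by positivity) (hs0 i) (hsl i)
  -- the map `ρ`
  let hh : ℕ → M → EllP p F := fun n y =>
    inj (Nat.unpair n).1 (tn x0 z n y • δ (tu n y))
  let rho : M → EllP p F := fun y => ∑ n ∈ TS x0 z y, hh n y
  have hhl : ∀ n x y, ‖hh n x - hh n y‖ ≤ ((2 * L) ^ p + L ^ p) * dist x y ^ p := by
    intro n x y
    have e : hh n x - hh n y = inj (Nat.unpair n).1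
        (tn x0 z n x • δ (tu n x) - tn x0 z n y • δ (tu n y)) := by
      rw [map_sub]
    rw [e, norm_inj]
    have h1 := prod_lip hp (tn x0 z n) (fun y => δ (tu n y)) (8 / dist (z n) x0)
      (L * (dist (z n) x0 / 4)) (L ^ p)
      (by have := hD n; positivity) (by have := hD n; positivity) hLp
      (fun y => th_abs _ _ y) (fun x y => th_lip _ (hD n) x y)
      (fun x y => by
        rw [h.isometric, ← Real.mul_rpow hL0 dist_nonneg]
        exact Real.rpow_le_rpow dist_nonneg (htul n x y) hp.le)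
      (fun x hx => by
        rw [hδ]
        refine Real.rpow_le_rpow dist_nonneg ?_ hp.le
        have h2 := htul n x (z n)
        rw [htuz] at h2
        exact h2.trans (mul_le_mul_of_nonneg_left (th_ne (hD n) hx) hL0)) x y
    have h2 : 8 / dist (z n) x0 * (L * (dist (z n) x0 / 4)) = 2 * L := by
      have := (hD n).ne'
      field_simp
      norm_num
    rwa [h2] at h1
  have hrl : ∀ x y, ‖rho x - rho y‖ ≤ (2 * (1 : ℕ) * ((2 * L) ^ p + L ^ p)) * dist x y ^ p :=
    overlap hh (TS x0 z) 1 _ (by positivity) (TS_card x0 z)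
      (fun x n hn => by
        show inj (Nat.unpair n).1 (tn x0 z n x • δ (tu n x)) = 0
        rw [TS_out hfast hn, zero_smul, map_zero]) hhl
  have hr0 : rho x0 = 0 := by
    show ∑ n ∈ TS x0 z x0, hh n x0 = 0
    refine Finset.sum_eq_zero fun n _ => ?_
    show inj (Nat.unpair n).1 (tn x0 z n x0 • δ (tu n x0)) = 0
    rw [tn_base hfast, zero_smul, map_zero]
  obtain ⟨R, hR, hRb⟩ := h.liftC hp rho _ (by positivity) hr0 hrl
  -- `ρ` on the images
  have hrs : ∀ i k x, dist x x0 ≤ 2 ^ (k + 1) → rho (sg (Nat.pair i k) x) = inj i (δ x) := by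
    intro i k x hx
    have h1 := hone i k x hx
    have h2 : TS x0 z (sg (Nat.pair i k) x) = {Nat.pair i k} :=
      TS_of_ne hfast (by rw [h1]; exact one_ne_zero)
    show ∑ n ∈ TS x0 z (sg (Nat.pair i k) x), hh n (sg (Nat.pair i k) x) = _
    rw [h2, Finset.sum_singleton]
    show inj (Nat.unpair (Nat.pair i k)).1
      (tn x0 z (Nat.pair i k) (sg (Nat.pair i k) x) •
        δ (tu (Nat.pair i k) (sg (Nat.pair i k) x))) = _
    rw [h1, one_smul, htusg _ _ (hx.trans (hpk i k)), Nat.unpair_pair]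
  have hRg : ∀ i k x, dist x x0 ≤ 2 ^ (k + 1) → R (g i k x) = inj i (δ x) := by
    intro i k x hx
    show R (δ (sg (Nat.pair i k) x) - δ (sg (Nat.pair i k) x0)) = _
    rw [map_sub, hR, hR, hrs i k x hx, hrs i k x0 (by rw [dist_self]; positivity), h.map_base,
      map_zero, sub_zero]
  have hRS : ∀ i, R.comp (S i) = inj i := by
    intro i
    refine h.unique _ inferInstance _ _ fun x => ?_
    show R (S i (δ x)) = _
    rw [hS]
    show R (∑ k ∈ T x, eta x0 k x • g i k x) = _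
    rw [map_sum]
    have h1 : ∀ k ∈ T x, R (eta x0 k x • g i k x) = eta x0 k x • (inj i (δ x) : EllP p F) := by
      intro k _
      rw [map_smul]
      by_cases hk : eta x0 k x = 0
      · rw [hk, zero_smul, zero_smul]
      · rw [hRg i k x (eta_ne hk)]
    rw [Finset.sum_congr rfl h1, ← Finset.sum_smul, eta_sum, one_smul]
  have h2 : R.comp (sumMap S _ hSb) = ContinuousLinearMap.id ℝ (EllP p F) := by
    refine ext_inj fun i y => ?_
    show R (sumMap S _ hSb (inj i y)) = inj i y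
    rw [sumMap_inj, ← hRS i]
    rfl
  -- the constants
  have c1 : 2 * (2 : ℕ) * ((6 * L) ^ p + L ^ p) ≤ 28 * L ^ p := by
    have := rpow_const hp1 (c := 6) (by norm_num) hL0
    push_cast
    linarith
  have c2 : 2 * (1 : ℕ) * ((2 * L) ^ p + L ^ p) ≤ 6 * L ^ p := by
    have := rpow_const hp1 (c := 2) (by norm_num) hL0
    push_cast
    linarith
  obtain ⟨Φ, hΦ1, hΦ2⟩ := pel hp (sumMap S _ hSb) R (fun w => by
      have h3 := congrArg (fun T : EllP p F →L[ℝ] EllP p F => T w) h2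
      exact h3) (s := 28 * L ^ p) (r := 6 * L ^ p) (by positivity) (by positivity)
    (fun w => (norm_sumMap_le S _ hSb w).trans (mul_le_mul_of_nonneg_right c1 (norm_nonneg _)))
    (fun y => (hRb y).trans (mul_le_mul_of_nonneg_right c2 (norm_nonneg _)))
  have hA : 1 ≤ L ^ p := Real.one_le_rpow hL1 hp.le
  have e3 : L ^ (3 * p) = (L ^ p) ^ 3 := by
    rw [mul_comm, Real.rpow_mul hL0]
    norm_cast
  rw [e3]
  generalize L ^ p = A at hA hΦ1 hΦ2
  have hA0 : 0 ≤ A := by linarith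
  have hA2 : A ^ 2 ≤ A ^ 3 := pow_le_pow_right₀ hA (by norm_num)
  have hA1 : A ≤ A ^ 3 := by
    calc A = A ^ 1 := (pow_one A).symm
      _ ≤ A ^ 3 := pow_le_pow_right₀ hA (by norm_num)
  have hA3 : 1 ≤ A ^ 3 := one_le_pow₀ hA
  refine ⟨Φ, fun v => (hΦ1 v).trans (mul_le_mul_of_nonneg_right ?_ (norm_nonneg _)),
    fun w => (hΦ2 w).trans (mul_le_mul_of_nonneg_right ?_ (norm_nonneg _))⟩
  · have e : 1 + 28 * A * (6 * A) + (1 + 2 * (28 * A * (6 * A))) * (6 * A) =
      1 + 168 * A ^ 2 + 6 * A + 2016 * A ^ 3 := by ring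
    rw [e]
    linarith
  · have e : 28 * A * (1 + 2 * (28 * A * (6 * A))) + (1 + 28 * A * (6 * A)) =
      28 * A + 9408 * A ^ 3 + 1 + 168 * A ^ 2 := by ring
    rw [e]
    linarith

/-- nets in spaces with similarities -/
theorem far_sim {X : Type u} [MetricSpace X] {N : Set X} {a b lam : ℝ} (ha : 0 < a) (hab : a ≤ b)
    (hsep : ∀ x ∈ N, ∀ y ∈ N, x ≠ y → a ≤ dist x y) (hdense : ∀ v : X, ∃ y ∈ N, dist v y ≤ b)
    (hlam : 1 < lam) (S : X ≃ X) (hS : ∀ x y, dist (S x) (S y) = lam * dist x y)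
    (hG : ∀ x : X, ∀ r : ℝ, ∃ g : X ≃ᵢ X, r ≤ dist (g x) x) (x0 : N) :
    FarCopies x0 (2 * (lam + 1) * (b / a)) := by
  classical
  choose rnd0 hrnd0 hrnd1 using hdense
  let rnd : X → N := fun v => ⟨rnd0 v, hrnd0 v⟩
  have hr : ∀ v : X, dist v (rnd v : X) ≤ b := hrnd1
  have hb : 0 < b := ha.trans_le hab
  have hba : 1 ≤ b / a := by rw [one_le_div ha]; exact hab
  -- the power
  have hex : ∃ k : ℕ, 2 * (b / a) < lam ^ k := pow_unbounded_of_one_lt _ hlam
  obtain ⟨k, hk1, hk2⟩ : ∃ k : ℕ, 2 * (b / a) < lam ^ k ∧ lam ^ k ≤ 2 * lam * (b / a) := by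
    refine ⟨Nat.find hex, Nat.find_spec hex, ?_⟩
    rcases Nat.eq_zero_or_pos (Nat.find hex) with h0 | h0
    · have h1 := Nat.find_spec hex
      rw [h0, pow_zero] at h1
      linarith
    · have h1 := Nat.find_min hex (Nat.sub_lt h0 one_pos)
      push Not at h1
      have h2 : lam ^ Nat.find hex = lam * lam ^ (Nat.find hex - 1) := by
        rw [← pow_succ', Nat.sub_add_cancel h0]
      rw [h2]
      have := mul_le_mul_of_nonneg_left h1 (by linarith : 0 ≤ lam)
      linarith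
  set Lam := lam ^ k with hLam
  have hLam1 : 1 ≤ Lam := one_le_pow₀ hlam.le
  have hLam0 : 0 < Lam := by linarith
  have hLb : 2 * b < Lam * a := by
    have h1 := mul_lt_mul_of_pos_right hk1 ha
    rwa [mul_assoc, div_mul_cancel₀ _ ha.ne'] at h1
  have hSk : ∀ m : ℕ, ∃ T : X ≃ X, ∀ x y, dist (T x) (T y) = lam ^ m * dist x y := by
    intro m
    induction m with
    | zero => exact ⟨Equiv.refl X, fun x y => by rw [pow_zero, one_mul]; rfl⟩
    | succ m ih =>
      obtain ⟨T, hT⟩ := ih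
      refine ⟨T.trans S, fun x y => ?_⟩
      show dist (S (T x)) (S (T y)) = _
      rw [hS, hT, pow_succ']
      ring
  obtain ⟨S1, hS1⟩ := hSk k
  rw [← hLam] at hS1
  intro R r
  obtain ⟨g, hg⟩ := hG x0 (r + b + dist (x0 : X) (S1 x0))
  let Q : X ≃ X := S1.trans g.toEquiv
  have hQ : ∀ x y, dist (Q x) (Q y) = Lam * dist x y := by
    intro x y
    show dist (g (S1 x)) (g (S1 y)) = _
    rw [g.isometry.dist_eq, hS1]
  have hQ' : ∀ x y, dist (Q.symm x) (Q.symm y) = Lam⁻¹ * dist x y := by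
    intro x y
    have h1 := hQ (Q.symm x) (Q.symm y)
    rw [Q.apply_symm_apply, Q.apply_symm_apply] at h1
    rw [h1, ← mul_assoc, inv_mul_cancel₀ hLam0.ne', one_mul]
  let sg : N → N := fun x => rnd (Q x)
  have hsg : ∀ x : N, dist (Q x) (sg x : X) ≤ b := fun x => hr _
  have hdN : ∀ x y : N, x ≠ y → a ≤ dist x y := fun x y hxy =>
    hsep _ x.2 _ y.2 (fun h => hxy (Subtype.ext h))
  have h2b : ∀ x y : N, x ≠ y → 2 * b ≤ 2 * (b / a) * dist x y := by
    intro x y hxy
    have h1 := mul_le_mul_of_nonneg_left (hdN x y hxy) (by positivity : 0 ≤ 2 * (b / a))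
    have h2 : 2 * (b / a) * a = 2 * b := by field_simp
    linarith
  have hinj : ∀ x y : N, sg x = sg y → x = y := by
    intro x y hxy
    by_contra hne
    have h1 := hdN x y hne
    have h2 := hsg x
    have h3 := hsg y
    rw [hxy] at h2
    have h4 := dist_triangle (Q x) (sg y : X) (Q y)
    rw [dist_comm (sg y : X)] at h4
    rw [hQ] at h4
    have h5 : Lam * a ≤ Lam * dist (x : X) (y : X) := mul_le_mul_of_nonneg_left h1 hLam0.le
    linarith
  let tu : N → N := fun y => if h : ∃ x, sg x = y then h.choose else rnd (Q.symm y)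
  have htusg : ∀ x, tu (sg x) = x := by
    intro x
    have h : ∃ x', sg x' = sg x := ⟨x, rfl⟩
    show (if h : ∃ x', sg x' = sg x then h.choose else rnd (Q.symm (sg x))) = x
    rw [dif_pos h]
    exact hinj _ _ h.choose_spec
  have htu : ∀ y : N, dist (Q.symm y) (tu y : X) ≤ b := by
    intro y
    show dist (Q.symm y) ((if h : ∃ x, sg x = y then h.choose else rnd (Q.symm y) : N) : X) ≤ b
    split_ifs with h
    · have h1 := hsg h.choose
      rw [h.choose_spec] at h1
      have h2 : dist (Q.symm y) (h.choose : X) = Lam⁻¹ * dist (y : X) (Q h.choose) := by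
        have := hQ' y (Q h.choose)
        rwa [Q.symm_apply_apply] at this
      rw [h2, dist_comm]
      calc Lam⁻¹ * dist (Q h.choose) (y : X) ≤ 1 * b :=
            mul_le_mul (inv_le_one_of_one_le₀ hLam1) h1 dist_nonneg zero_le_one
        _ = b := one_mul b
    · exact hr _
  have hLL : Lam + 2 * (b / a) ≤ 2 * (lam + 1) * (b / a) := by
    have : 2 * (lam + 1) * (b / a) = 2 * lam * (b / a) + 2 * (b / a) := by ring
    linarith
  refine ⟨sg, tu, fun x y => ?_, fun x y => ?_, fun x _ => htusg x, ?_⟩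
  · rcases eq_or_ne x y with rfl | hxy
    · simp
    refine le_trans ?_ (mul_le_mul_of_nonneg_right hLL dist_nonneg)
    have h1 := dist_triangle4 (sg x : X) (Q x) (Q y) (sg y : X)
    have h2 := hsg x
    rw [dist_comm] at h2
    have h3 := hsg y
    rw [hQ] at h1
    have h4 := h2b x y hxy
    rw [add_mul]
    have e1 : dist (sg x) (sg y) = dist (sg x : X) (sg y : X) := rfl
    have e2 : dist x y = dist (x : X) (y : X) := rfl
    rw [e1]
    rw [e2] at h4 ⊢
    linarith
  · rcases eq_or_ne x y with rfl | hxy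
    · simp
    refine le_trans ?_ (mul_le_mul_of_nonneg_right hLL dist_nonneg)
    have h1 := dist_triangle4 (tu x : X) (Q.symm x) (Q.symm y) (tu y : X)
    have h2 := htu x
    rw [dist_comm] at h2
    have h3 := htu y
    rw [hQ'] at h1
    have h4 := h2b x y hxy
    rw [add_mul]
    have e1 : dist (tu x) (tu y) = dist (tu x : X) (tu y : X) := rfl
    have e2 : dist x y = dist (x : X) (y : X) := rfl
    have h5 : Lam⁻¹ * dist (x : X) (y : X) ≤ Lam * dist (x : X) (y : X) :=
      mul_le_mul_of_nonneg_right ((inv_le_one_of_one_le₀ hLam1).trans hLam1) dist_nonneg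
    rw [e1]
    rw [e2] at h4 ⊢
    linarith
  · show r ≤ dist (sg x0 : X) (x0 : X)
    have h1 := hsg x0
    have h2 := dist_triangle4 (g (x0 : X)) (Q x0) (sg x0 : X) (x0 : X)
    have h3 : dist (g (x0 : X)) (Q x0) = dist (x0 : X) (S1 x0) := g.isometry.dist_eq _ _
    rw [h3] at h2
    linarith

/-- unbounded orbits of isometries -/
theorem far_isometry {M : Type u} [MetricSpace M] (x0 : M)
    (h : ∀ r : ℝ, ∃ g : M ≃ᵢ M, r ≤ dist (g x0) x0) : FarCopies x0 1 := by
  intro R r
  obtain ⟨g, hg⟩ := h r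
  refine ⟨g, g.symm, fun x y => ?_, fun x y => ?_, fun x _ => g.symm_apply_apply x, hg⟩
  · rw [one_mul, g.isometry.dist_eq]
  · rw [one_mul, g.symm.isometry.dist_eq]

end Pool.Agent.Y276.Lf
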