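import Pool.Agent.Y276.Lf.Far
import Pool.Agent.H621R3.LFExist

set_option autoImplicit false
set_option linter.unusedSectionVars false

namespace Pool.Agent.Y276.Lf

open Pool.Agent.H621R3.LF

universe u

/-- for every Lipschitz free `p`-space `F` over `M` with base point `x0` there is an isomorphism
`Φ` of `F` onto `ℓ_p(F)` such that the `p`-th powers of the norms of `Φ` and of its inverse are at
most `K` -/
def LpIso (p : ℝ) {M : Type u} [MetricSpace M] (x0 : M) (K : ℝ) : Prop :=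
  ∀ (F : Type u) [NormedAddCommGroup F] [Module ℝ F] [PBanach p F] (δ : M → F),
    IsLipFree p x0 δ → ∃ Φ : F ≃L[ℝ] EllP p F, (∀ v, ‖Φ v‖ ≤ K * ‖v‖) ∧
      ∀ w, ‖Φ.symm w‖ ≤ K * ‖w‖

/-- `N` is `a`-separated and `b`-dense in `X` -/
def IsNetAB {X : Type u} [MetricSpace X] (N : Set X) (a b : ℝ) : Prop :=
  0 < a ∧ a ≤ b ∧ (∀ x ∈ N, ∀ y ∈ N, x ≠ y → a ≤ dist x y) ∧ ∀ v : X, ∃ y ∈ N, dist v y ≤ b

variable {p : ℝ}

theorem lp_far (hp : 0 < p) (hp1 : p ≤ 1) {M : Type u} [MetricSpace M] (x0 : M) {L : ℝ}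
    (h : FarCopies x0 L) : LpIso p x0 (10 ^ 4 * L ^ (3 * p)) := by
  intro F _ _ _ δ hδ
  exact far_iso h hp hp1 δ hδ

theorem lp_isometry (hp : 0 < p) (hp1 : p ≤ 1) {M : Type u} [MetricSpace M] (x0 : M)
    (h : ∀ r : ℝ, ∃ g : M ≃ᵢ M, r ≤ dist (g x0) x0) : LpIso p x0 (10 ^ 4) := by
  have h1 := lp_far hp hp1 x0 (far_isometry x0 h)
  rwa [Real.one_rpow, mul_one] at h1

theorem lp_sim (hp : 0 < p) (hp1 : p ≤ 1) {X : Type u} [MetricSpace X] {lam : ℝ} (hlam : 1 < lam)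
    (S : X ≃ X) (hS : ∀ x y, dist (S x) (S y) = lam * dist x y)
    (hG : ∀ x : X, ∀ r : ℝ, ∃ g : X ≃ᵢ X, r ≤ dist (g x) x) {N : Set X} {a b : ℝ}
    (hN : IsNetAB N a b) (x0 : N) : LpIso p x0 (10 ^ 4 * (2 * (lam + 1) * (b / a)) ^ (3 * p)) :=
  lp_far hp hp1 x0 (far_sim hN.1 hN.2.1 hN.2.2.1 hN.2.2.2 hlam S hS hG x0)

theorem lp_normed (hp : 0 < p) (hp1 : p ≤ 1) {X : Type u} [NormedAddCommGroup X] [NormedSpace ℝ X]
    {N : Set X} {a b : ℝ} (hN : IsNetAB N a b) (x0 : N) :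
    LpIso p x0 (10 ^ 4 * (6 * (b / a)) ^ (3 * p)) := by
  rcases subsingleton_or_nontrivial X with hX | hX
  · intro F _ _ _ δ h
    have hδ : ∀ x, δ x = 0 := by
      intro x
      have : x = x0 := Subsingleton.elim _ _
      rw [this, h.map_base]
    have hid : ContinuousLinearMap.id ℝ F = 0 :=
      h.unique F inferInstance _ _ (fun x => by rw [hδ]; simp)
    have h0 : ∀ v : F, v = 0 := fun v => by
      have := congrArg (fun T : F →L[ℝ] F => T v) hid
      simpa using this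
    obtain ⟨Φ, h1, h2⟩ := pel (p := p) (Y := F) hp 0 0 (fun w => by
      refine EllP.ext fun n => ?_
      rw [h0 (w n)]
      rfl) (s := 0) (r := 0) le_rfl le_rfl (fun w => by simp) (fun y => by simp)
    have hba : 1 ≤ b / a := by rw [one_le_div hN.1]; exact hN.2.1
    have hK : 1 ≤ 10 ^ 4 * (6 * (b / a)) ^ (3 * p) := by
      have h3 : 1 ≤ (6 * (b / a)) ^ (3 * p) := Real.one_le_rpow (by linarith) (by positivity)
      linarith
    refine ⟨Φ, fun v => (h1 v).trans (mul_le_mul_of_nonneg_right (by linarith) (norm_nonneg _)),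
      fun w => (h2 w).trans (mul_le_mul_of_nonneg_right (by linarith) (norm_nonneg _))⟩
  · have h := lp_sim hp hp1 (lam := 2) one_lt_two (N := N) (a := a) (b := b)
      (LinearEquiv.smulOfNeZero ℝ X (2 : ℝ) two_ne_zero).toEquiv
      (fun x y => by
        show dist ((2 : ℝ) • x) ((2 : ℝ) • y) = _
        rw [dist_smul₀, Real.norm_of_nonneg (by norm_num : (0 : ℝ) ≤ 2)])
      (fun x r => by
        obtain ⟨u, hu⟩ : ∃ u : X, ‖u‖ = |r| := exists_norm_eq X (abs_nonneg r)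
        refine ⟨IsometryEquiv.addLeft u, ?_⟩
        show r ≤ dist (u + x) x
        rw [dist_eq_norm, add_sub_cancel_right, hu]
        exact le_abs_self r) hN x0
    have e : 2 * ((2 : ℝ) + 1) * (b / a) = 6 * (b / a) := by ring
    rwa [e] at h

end Pool.Agent.Y276.Lf
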