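import Pool.Agent.H621R3.LFNet

set_option autoImplicit false
set_option linter.unusedSectionVars false

/-!
The Pelczynski decomposition with constants.
-/

namespace Pool.Agent.Y276.Lf

open Pool.Agent.H621R3.LF

variable {p : ℝ} {Y Z : Type*} [NormedAddCommGroup Y] [Module ℝ Y]
  [NormedAddCommGroup Z] [Module ℝ Z] [PBanach p Y] [PBanach p Z]

theorem norm_mkSeq_le (T : ℕ → (Y →L[ℝ] Z)) (C : ℝ)
    (h : ∀ y, Summable (fun n => ‖T n y‖) ∧ ∑' n, ‖T n y‖ ≤ C * ‖y‖) (y : Y) :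
    ‖(mkSeq T C h y : EllP p Z)‖ ≤ C * ‖y‖ := by
  rw [EllP.norm_eq]
  exact (h y).2

theorem norm_shiftL_le (f : EllP p Y) : ‖shiftL f‖ ≤ ‖f‖ := by
  unfold shiftL
  exact (norm_mkSeq_le _ _ _ _).trans (le_of_eq (one_mul _))

theorem norm_shiftR_le (f : EllP p Y) : ‖shiftR f‖ ≤ ‖f‖ := by
  unfold shiftR
  exact (norm_mkSeq_le _ _ _ _).trans (le_of_eq (one_mul _))

theorem norm_mapE_le (hp : 0 < p) (Q : Y →L[ℝ] Z) (q : ℝ) (hq : ∀ y, ‖Q y‖ ≤ q * ‖y‖)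
    (f : EllP p Y) : ‖mapE hp Q f‖ ≤ q * ‖f‖ := by
  rw [EllP.norm_eq, EllP.norm_eq, ← tsum_mul_left]
  have h1 : Summable fun n => q * ‖f n‖ := f.summable.mul_left _
  have h2 : Summable fun n => ‖(mapE hp Q f : EllP p Z) n‖ :=
    h1.of_nonneg_of_le (fun _ => norm_nonneg _) fun n => hq (f n)
  exact h2.tsum_le_tsum (fun n => hq (f n)) h1

theorem norm_sumMap_le (S : ℕ → (Y →L[ℝ] Z)) (C : ℝ) (h : ∀ n y, ‖S n y‖ ≤ C * ‖y‖)
    (f : EllP p Y) : ‖sumMap S C h f‖ ≤ C * ‖f‖ := by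
  have hs : Summable fun n => ‖S n (f n)‖ :=
    (f.summable.mul_left C).of_nonneg_of_le (fun _ => norm_nonneg _) fun n => h n (f n)
  rw [sumMap_apply]
  refine (norm_tsum_le_tsum_norm hs).trans ?_
  rw [EllP.norm_eq, ← tsum_mul_left]
  exact hs.tsum_le_tsum (fun n => h n (f n)) (f.summable.mul_left C)

/-- **Pelczynski decomposition** with constants -/
theorem pel (hp : 0 < p) (S : EllP p Y →L[ℝ] Y) (R : Y →L[ℝ] EllP p Y)
    (hRS : ∀ w, R (S w) = w) {s r : ℝ} (hs0 : 0 ≤ s) (hr0 : 0 ≤ r) (hs : ∀ w, ‖S w‖ ≤ s * ‖w‖)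
    (hr : ∀ y, ‖R y‖ ≤ r * ‖y‖) :
    ∃ Φ : Y ≃L[ℝ] EllP p Y,
      (∀ y, ‖Φ y‖ ≤ ((1 + s * r) + (1 + 2 * (s * r)) * r) * ‖y‖) ∧
      ∀ w, ‖Φ.symm w‖ ≤ (s * (1 + 2 * (s * r)) + (1 + s * r)) * ‖w‖ := by
  let Q : Y →L[ℝ] Y := S.comp R
  let mQ : EllP p Y →L[ℝ] EllP p Y := mapE hp Q
  have hQ : ∀ y, Q y = S (R y) := fun _ => rfl
  have hQQ : ∀ y, Q (Q y) = Q y := fun y => by rw [hQ, hQ, hRS]
  have hmQ : ∀ (w : EllP p Y) n, mQ w n = Q (w n) := fun _ _ => rfl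
  let Ψ : Y →L[ℝ] EllP p Y :=
    (inj 0).comp (ContinuousLinearMap.id ℝ Y - Q) + (shiftR.comp (ContinuousLinearMap.id ℝ _ - mQ) + mQ).comp R
  let Θ : EllP p Y →L[ℝ] Y :=
    S.comp (mQ + shiftL.comp (ContinuousLinearMap.id ℝ _ - mQ)) +
      (ContinuousLinearMap.id ℝ Y - Q).comp (coord 0)
  have hΨ0 : ∀ y, Ψ y 0 = (y - Q y) + Q (R y 0) := by
    intro y
    show ((inj 0 (y - Q y) : EllP p Y) 0) + ((shiftR (R y - mQ (R y)) : EllP p Y) 0 + mQ (R y) 0) = _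
    rw [inj_apply, if_pos rfl, shiftR_zero, hmQ, zero_add]
  have hΨs : ∀ y n, Ψ y (n + 1) = (R y n - Q (R y n)) + Q (R y (n + 1)) := by
    intro y n
    show ((inj 0 (y - Q y) : EllP p Y) (n + 1)) +
      ((shiftR (R y - mQ (R y)) : EllP p Y) (n + 1) + mQ (R y) (n + 1)) = _
    rw [inj_apply, if_neg (Nat.succ_ne_zero n), shiftR_succ, hmQ, zero_add]
    rfl
  let W : EllP p Y → EllP p Y := fun u => mQ u + shiftL (u - mQ u)
  have hW : ∀ u n, W u n = Q (u n) + (u (n + 1) - Q (u (n + 1))) := fun u n => rfl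
  have hΘ : ∀ u, Θ u = S (W u) + (u 0 - Q (u 0)) := fun u => rfl
  have h1 : ∀ y, Θ (Ψ y) = y := by
    intro y
    have hQ0 : Q (Ψ y 0) = Q (R y 0) := by
      rw [hΨ0, map_add, map_sub, hQQ, hQQ, sub_self, zero_add]
    have hQs : ∀ n, Q (Ψ y (n + 1)) = Q (R y (n + 1)) := by
      intro n
      rw [hΨs, map_add, map_sub, hQQ, hQQ, sub_self, zero_add]
    have hQn : ∀ n, Q (Ψ y n) = Q (R y n) := by
      intro n
      cases n with
      | zero => exact hQ0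
      | succ n => exact hQs n
    have hWy : W (Ψ y) = R y := by
      refine EllP.ext fun n => ?_
      rw [hW, hQn, hQs, hΨs]
      abel
    rw [hΘ, hWy, hQ0, hΨ0, ← hQ]
    abel
  have h2 : ∀ u, Ψ (Θ u) = u := by
    intro u
    have hR : R (Θ u) = W u := by
      rw [hΘ, map_add, map_sub, hRS, hQ, hRS, sub_self, add_zero]
    have hQΘ : Q (Θ u) = S (W u) := by rw [hQ, hR]
    have hQW : ∀ n, Q (W u n) = Q (u n) := by
      intro n
      rw [hW, map_add, map_sub, hQQ, hQQ, sub_self, add_zero]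
    refine EllP.ext fun n => ?_
    cases n with
    | zero =>
      rw [hΨ0, hQΘ, hR, hQW, hΘ]
      abel
    | succ n =>
      rw [hΨs, hR, hQW, hQW, hW]
      abel
  have hq : ∀ y, ‖Q y‖ ≤ (s * r) * ‖y‖ := by
    intro y
    rw [hQ, mul_assoc]
    exact (hs _).trans (mul_le_mul_of_nonneg_left (hr y) hs0)
  have hmq : ∀ w, ‖mQ w‖ ≤ (s * r) * ‖w‖ := fun w => norm_mapE_le hp Q _ hq w
  have hid : ∀ w : EllP p Y, ‖w - mQ w‖ ≤ (1 + s * r) * ‖w‖ := by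
    intro w
    have := norm_sub_le w (mQ w)
    have := hmq w
    linarith
  have hid' : ∀ y : Y, ‖y - Q y‖ ≤ (1 + s * r) * ‖y‖ := by
    intro y
    have := norm_sub_le y (Q y)
    have := hq y
    linarith
  refine ⟨ContinuousLinearEquiv.equivOfInverse Ψ Θ h1 h2, fun y => ?_, fun w => ?_⟩
  · show ‖(inj 0 (y - Q y) : EllP p Y) + (shiftR (R y - mQ (R y)) + mQ (R y))‖ ≤ _
    have a1 : ‖(inj 0 (y - Q y) : EllP p Y)‖ ≤ (1 + s * r) * ‖y‖ := by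
      rw [norm_inj]; exact hid' y
    have a2 : ‖shiftR (R y - mQ (R y))‖ ≤ (1 + s * r) * ‖R y‖ :=
      (norm_shiftR_le _).trans (hid _)
    have a3 := hmq (R y)
    have a4 : ‖shiftR (R y - mQ (R y)) + mQ (R y)‖ ≤ (1 + 2 * (s * r)) * ‖R y‖ := by
      refine (norm_add_le _ _).trans ?_
      linarith
    have a5 : (1 + 2 * (s * r)) * ‖R y‖ ≤ (1 + 2 * (s * r)) * (r * ‖y‖) :=
      mul_le_mul_of_nonneg_left (hr y) (by positivity)
    refine (norm_add_le _ _).trans ?_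
    have e : ((1 + s * r) + (1 + 2 * (s * r)) * r) * ‖y‖ =
      (1 + s * r) * ‖y‖ + (1 + 2 * (s * r)) * (r * ‖y‖) := by ring
    rw [e]
    exact add_le_add a1 (a4.trans a5)
  · show ‖S (mQ w + shiftL (w - mQ w)) + (w 0 - Q (w 0))‖ ≤ _
    have a1 : ‖mQ w + shiftL (w - mQ w)‖ ≤ (1 + 2 * (s * r)) * ‖w‖ := by
      have := norm_add_le (mQ w) (shiftL (w - mQ w))
      have := norm_shiftL_le (w - mQ w)
      have := hid w
      have := hmq w
      linarith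
    have a2 : ‖S (mQ w + shiftL (w - mQ w))‖ ≤ s * ((1 + 2 * (s * r)) * ‖w‖) :=
      (hs _).trans (mul_le_mul_of_nonneg_left a1 hs0)
    have a3 : ‖w 0 - Q (w 0)‖ ≤ (1 + s * r) * ‖w‖ :=
      (hid' _).trans (mul_le_mul_of_nonneg_left (w.norm_coord_le 0) (by positivity))
    refine (norm_add_le _ _).trans ?_
    have e : (s * (1 + 2 * (s * r)) + (1 + s * r)) * ‖w‖ =
      s * ((1 + 2 * (s * r)) * ‖w‖) + (1 + s * r) * ‖w‖ := by ring
    rw [e]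
    exact add_le_add a2 a3

end Pool.Agent.Y276.Lf
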